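import Pool.Agent.U785.CP.Main

/-!
# No invariant line fields for `b cosh z + γ`, outside a set of parameters of finite area

For `α β ≠ 0` the map `α e^z + β e^{-z} + δ` is conjugate by a translation to a map
`f(z) = b cosh z + γ`. The theorem says that, for every `γ`, outside a set of parameters `b` of small
area the Julia set of `f` is the whole plane, almost every orbit tends to infinity, and `f` has no
invariant line field.

(1) In every strip `t ≤ Im b ≤ t + 2 π` the exceptional parameters have area at most `K (1 + |γ|)`.

(2) Those with `|Re b| ≥ 2 |γ| + x` have area at most `K (1 + x) e^{-x}`, for all `x ≥ 0`.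

(3) Those with `|b| ≤ R` have area at most `K (1 + |γ|) R`, for all `R ≥ 1`.

Method. Parameter plane: let `v_n (b)` be the orbit of one of the two critical values `γ ± b`. As long
as `|Re v_n|` grows by factors `4`, the function `v_n` is nearly affine on the disc of radius
`8 / |v_n'(b)|` about `b`. The next real part fails to be four times as large only if the cosine of
`± Im v_n (w) + arg w` is very small; on the disc this phase is the imaginary part of the holomorphic
function `± v_n (w) + log (w / b)`, up to a constant, and so the failure has conditional probability
`O (t e^{-t})` with `t = |Re v_n|`. A covering lemma gives (1) and (2).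

Dynamical plane, if both critical orbits escape fast: (a) Every orbit which avoids the critical points
has infinitely many times at which the derivative is large and the iterate is nearly affine on a disc
which is mapped onto a disc of definite size: if a point is mapped near to a critical point, it shadows
the orbit of the critical value, and regains the loss of derivative. (b) The set of the points which
escape fast has area at least `1` in every disc of radius `60`. (c) By (a), (b), a Bloch type theorem,
periodicity and the density theorem almost every orbit escapes fast. (d) The Julia set is the plane: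
a disc on which the iterates tend to infinity uniformly has bounded derivatives, by Cauchy's estimate
for `exp (∓ τ f^n)`. (e) Let `μ` be an invariant line field, and `z` a Lebesgue point of `μ` which
escapes fast. Then `μ` is nearly constant on the disc of radius `6` about `f^k (z)`, for large `k`. The
image of this disc under `f` covers an annulus `R / 2 ≤ |w| ≤ 2 R`, on which `μ` is therefore close to a
constant times `w / conj w`. But `μ` is `2 π i`-periodic; the values near `R` and near `R + i R`
contradict each other.
-/

set_option autoImplicit false

open MeasureTheory

namespace Pool.Agent.Results.MP_70a088_an.CosineFamily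

open Pool.Agent.U785.CP (Wild)

/-- For every `γ` the parameters `b` for which `b cosh z + γ` has a Julia set different from `ℂ`, or
a set of positive area of orbits which do not tend to infinity, or an invariant line field, have
finite area in every horizontal strip of height `2 π`. -/
theorem result : ∃ K : ℝ, 0 < K ∧ ∀ γ : ℂ,
    (∀ t : ℝ, volume {b : ℂ | t ≤ b.im ∧ b.im ≤ t + 2 * Real.pi ∧
        ¬ Wild (fun z : ℂ => b * Complex.cosh z + γ)} ≤ ENNReal.ofReal (K * (1 + ‖γ‖))) ∧
    (∀ t x : ℝ, 0 ≤ x →
      volume {b : ℂ | x + 2 * ‖γ‖ ≤ |b.re| ∧ t ≤ b.im ∧ b.im ≤ t + 2 * Real.pi ∧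
        ¬ Wild (fun z : ℂ => b * Complex.cosh z + γ)} ≤
      ENNReal.ofReal (K * ((1 + x) * Real.exp (-x)))) ∧
    ∀ R : ℝ, 1 ≤ R →
      volume {b : ℂ | ‖b‖ ≤ R ∧ ¬ Wild (fun z : ℂ => b * Complex.cosh z + γ)} ≤
      ENNReal.ofReal (K * (1 + ‖γ‖) * R) := by
  have hE : 1 ≤ Real.exp 1000 := Real.one_le_exp (by norm_num)
  refine ⟨2 * 10 ^ 8 * Real.exp 1000, by positivity, fun γ => ⟨fun t => ?_, fun t x hx => ?_,
    fun R hR => ?_⟩⟩
  · refine (Pool.Agent.U785.CP.strip γ t).trans (ENNReal.ofReal_le_ofReal ?_)
    have h : 0 ≤ ‖γ‖ := norm_nonneg γ
    apply mul_le_mul_of_nonneg_right _ (by positivity)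
    linarith
  · refine (Pool.Agent.U785.CP.tail γ t hx).trans (ENNReal.ofReal_le_ofReal ?_)
    have := Real.exp_pos (-x)
    apply mul_le_mul_of_nonneg_right _ (by positivity)
    linarith
  · refine (Pool.Agent.U785.CP.disc γ hR).trans (ENNReal.ofReal_le_ofReal ?_)
    have h : 0 ≤ ‖γ‖ := norm_nonneg γ
    have h2 : 0 ≤ (1 + ‖γ‖) * R := by positivity
    nlinarith

end Pool.Agent.Results.MP_70a088_an.CosineFamily
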