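import Pool.Agent.U785.EX.Main

/-!
# No invariant line fields in the exponential family, outside a set of parameters of finite area

Let `f_c (z) = e^z + c`. We call `c` rigid if `f_c` has an attracting cycle, the Julia set of `f_c`
has area zero, and `f_c` has no invariant line field supported on its Julia set.

(1) In every period strip `b ≤ Im c ≤ b + 2 π` the set of the parameters which are not rigid has
finite area (at most `K`, independent of `b`).

(2) The part of this set in `Re c ≥ x` has area at most `K x e^{-x}`, for all `x ≥ 1`.

(3) For the family `λ e^z` (which is affinely conjugate to `e^z + log λ`): among the `λ` with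
`|λ| ≤ R` those which are not rigid have area at most `K R log R`.

Method. Let `v_n (c)` be the orbit of the singular value `c`. As long as its real parts are positive
and increasing, `v_n` is nearly affine on the disc of radius `8 / |v_n'(c)|` about `c`, and
`v_{n+1} = e^{v_n} + c` lies far to the left, far to the right, or the real part of `v_{n + 1}` is less
than four times that of `v_n`. The third case has conditional probability `O (t e^{-t})` with
`t = Re v_n` (covering lemma of Vitali). In the first case `c` is attracted by a cycle. The parameters
for which the second case always occurs form a null set (density theorem).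

If the orbit of `c` arrives far on the left, an explicit disc about `c` is mapped into itself. The
orbits which avoid this disc have exponentially growing derivatives: if a point is mapped near to
`c`, it shadows the orbit of `c`, and regains the loss of derivative before the orbit arrives on the
left. Hence small discs about such points are mapped, nearly affinely, onto discs of a definite
size, which contain a definite proportion of the basin (density of the basin: Cauchy estimate for
`exp (- f^k)`; periodicity and compactness). By the density theorem the orbits which avoid the disc
form a null set. So the Julia set is a null set. Neither the hyperbolic metric nor the classification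
of the Fatou components is used.
-/

set_option autoImplicit false

open MeasureTheory

namespace Pool.Agent.Results.MP_70a088_an.ExponentialFamily

open Pool.Agent.U785.EX (Rigid)

/-- The parameters `c` for which `e^z + c` has no attracting cycle, or a Julia set of positive area,
or an invariant line field on its Julia set, have finite area in every period strip. -/
theorem result : ∃ K : ℝ, 0 < K ∧
    (∀ b : ℝ, volume {c : ℂ | b ≤ c.im ∧ c.im ≤ b + 2 * Real.pi ∧ ¬ Rigid c} ≤
      ENNReal.ofReal K) ∧
    (∀ b x : ℝ, 1 ≤ x →
      volume {c : ℂ | x ≤ c.re ∧ b ≤ c.im ∧ c.im ≤ b + 2 * Real.pi ∧ ¬ Rigid c} ≤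
        ENNReal.ofReal (K * (x * Real.exp (-x)))) ∧
    ∀ R : ℝ, 2 ≤ R → volume {l : ℂ | l ≠ 0 ∧ ‖l‖ ≤ R ∧ ¬ Rigid (Complex.log l)} ≤
      ENNReal.ofReal (K * (R * Real.log R)) := by
  obtain ⟨K, hK, H⟩ := Pool.Agent.U785.EX.plane
  have h0 : 0 < Pool.Agent.U785.EX.KK := by
    unfold Pool.Agent.U785.EX.KK
    have := Real.exp_pos 20
    positivity
  refine ⟨max K Pool.Agent.U785.EX.KK, lt_of_lt_of_le hK (le_max_left _ _), fun b => ?_,
    fun b x hx => ?_, fun R hR => ?_⟩
  · exact (Pool.Agent.U785.EX.strip b).trans (ENNReal.ofReal_le_ofReal (le_max_right _ _))
  · refine (Pool.Agent.U785.EX.tail b hx).trans (ENNReal.ofReal_le_ofReal ?_)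
    apply mul_le_mul_of_nonneg_right (le_max_right _ _)
    have := Real.exp_pos (-x)
    positivity
  · refine (H R hR).trans (ENNReal.ofReal_le_ofReal ?_)
    apply mul_le_mul_of_nonneg_right (le_max_left _ _)
    have := Real.log_nonneg (by linarith : (1 : ℝ) ≤ R)
    positivity

end Pool.Agent.Results.MP_70a088_an.ExponentialFamily
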