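import Mathlib
import Pool.Agent.N634.LF.Line
import Pool.Agent.Results.MP_28f8a1_an.FewCriticalPoints

/-!
# Invariant line fields of polynomials of large degree with few critical points

Let `F` be a polynomial of large degree `N` with at most `k` distinct critical points (of arbitrary
multiplicities). For all `t` outside a set of area `O((log N / N) ^ (2 / k))` the Julia set of `F + t`
is a null set and carries no invariant line field, and there is such a `t` with
`|t| = O((log N / N) ^ (1 / k))`.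
-/

set_option autoImplicit false

open Polynomial Filter Topology MeasureTheory

namespace Pool.Agent.Results.MP_70a088_an.FewCriticalPointsRigid

/-- The polynomial as a self-map of the plane. -/
def map (T : ℂ[X]) : ℂ → ℂ := fun z : ℂ => T.eval z

/-- The filled Julia set: the points whose orbits do not tend to infinity. -/
def filled (T : ℂ[X]) : Set ℂ :=
  {z : ℂ | ¬ Tendsto (fun k : ℕ => ‖(map T)^[k] z‖) atTop atTop}

/-- The Julia set. -/
def julia (T : ℂ[X]) : Set ℂ := frontier (filled T)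

/-- `μ` is an invariant line field supported on the Julia set of `T`: it is of absolute value one on
the set `S` of positive measure in the Julia set, vanishes off `S`, and is invariant. -/
structure LineField (T : ℂ[X]) (μ : ℂ → ℂ) (S : Set ℂ) : Prop where
  meas : Measurable μ
  one : ∀ z ∈ S, ‖μ z‖ = 1
  off : ∀ z, z ∉ S → μ z = 0
  pos : 0 < volume S
  sub : S ⊆ julia T
  inv : ∀ᵐ z : ℂ, μ (map T z) * (starRingEnd ℂ (deriv (map T) z) / deriv (map T) z) = μ z

/-- The Julia set of `T` is a null set, and `T` has no invariant line field supported on it. -/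
def Rigid (T : ℂ[X]) : Prop :=
  volume (julia T) = 0 ∧ ¬ ∃ (μ : ℂ → ℂ) (S : Set ℂ), LineField T μ S

/-- The critical points of `F` lie in the disc of radius `M`, and `|F(0)| ≤ M`. There is no condition
on the leading coefficient. -/
def Normalized (M : ℝ) (F : ℂ[X]) : Prop :=
  (∀ c : ℂ, (derivative F).eval c = 0 → ‖c‖ ≤ M) ∧ ‖F.eval 0‖ ≤ M

theorem rigid_of_null {T : ℂ[X]} (h : volume (julia T) = 0) : Rigid T := by
  refine ⟨h, ?_⟩
  rintro ⟨μ, S, hS⟩
  exact hS.pos.ne' (measure_mono_null hS.sub h)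

theorem rigid_of_hyp {K : ℕ} {T : ℂ[X]} (hT : 2 ≤ T.natDegree)
    (h : Pool.Agent.Results.MP_28f8a1_an.FewCriticalPoints.Hyperbolic K T) : Rigid T := by
  apply rigid_of_null
  have h1 : Pool.Agent.N634.LF.Hyperbolic T := by
    intro c hc
    rcases h c hc with h2 | ⟨n, hn, _, x, h3, h4, h5⟩
    · exact Or.inl h2
    · exact Or.inr ⟨n, hn, x, h3, h4, h5⟩
  exact Pool.Agent.N634.LF.julia_null hT h1

/-- Let `k ≥ 1`, `M ≥ 1`. For all large `N` and all normalized polynomials `F` of degree `N`: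

if `F` has at most `k` distinct critical points, then the area of the set of the `t` in the disc of
radius `M` for which `F + t` is not rigid is at most `K (log N / N) ^ (2 / k)` if `k ≥ 3` and at most
`K (log N) ^ 2 / N` if `k ≤ 2`, and `F + t` is rigid for some `t` with
`|t| ≤ 20 k M (96 k (k + 10) log N / N) ^ (1 / k)`;

if all critical values of `F` lie in a set `V` of at most `k` points, this area is at most the sum
over `v` in `V` of the areas of `{|z - v| ≤ M, |z| ≤ 9 M, N ^ (-(k + 10)) ≤ |F'(z)| ≤ N ^ (k + 10)}`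
plus `K / N ^ 3`. -/
theorem result (k : ℕ) (hk : 1 ≤ k) (M : ℝ) (hM : 1 ≤ M) :
    ∃ K : ℝ, ∃ n₀ : ℕ, ∀ N : ℕ, n₀ ≤ N → ∀ F : ℂ[X], F.natDegree = N → Normalized M F →
      ({c : ℂ | (derivative F).eval c = 0}.ncard ≤ k →
        (3 ≤ k → volume {t : ℂ | ‖t‖ ≤ M ∧ ¬ Rigid (F + C t)} ≤
          ENNReal.ofReal (K * (Real.log N / N) ^ ((2 : ℝ) / k))) ∧
        (k ≤ 2 → volume {t : ℂ | ‖t‖ ≤ M ∧ ¬ Rigid (F + C t)} ≤
          ENNReal.ofReal (K * (Real.log N ^ 2 / N))) ∧
        ∃ t : ℂ, ‖t‖ ≤ 20 * k * M * (96 * k * (k + 10) * (Real.log N / N)) ^ ((1 : ℝ) / k) ∧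
          Rigid (F + C t)) ∧
      ∀ V : Finset ℂ, V.card ≤ k → (∀ c : ℂ, (derivative F).eval c = 0 → F.eval c ∈ V) →
        volume {t : ℂ | ‖t‖ ≤ M ∧ ¬ Rigid (F + C t)} ≤
          ∑ v ∈ V, volume {z : ℂ | ‖z - v‖ ≤ M ∧ ‖z‖ ≤ 9 * M ∧
            1 / (N : ℝ) ^ (k + 10) ≤ ‖(derivative F).eval z‖ ∧
            ‖(derivative F).eval z‖ ≤ (N : ℝ) ^ (k + 10)} + ENNReal.ofReal (K / (N : ℝ) ^ 3) := by
  obtain ⟨K, n₀, h⟩ := Pool.Agent.Results.MP_28f8a1_an.FewCriticalPoints.result k hk M hM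
  refine ⟨K, max n₀ 2, fun N hN F hF hn => ?_⟩
  have hN1 : n₀ ≤ N := (le_max_left _ _).trans hN
  have hN2 : 2 ≤ N := (le_max_right _ _).trans hN
  have hdeg : ∀ t : ℂ, 2 ≤ (F + C t).natDegree := by
    intro t
    rw [natDegree_add_C, hF]
    exact hN2
  have hsub : {t : ℂ | ‖t‖ ≤ M ∧ ¬ Rigid (F + C t)} ⊆ {t : ℂ | ‖t‖ ≤ M ∧
      ¬ Pool.Agent.Results.MP_28f8a1_an.FewCriticalPoints.Hyperbolic k (F + C t)} :=
    fun t ht => ⟨ht.1, fun hh => ht.2 (rigid_of_hyp (hdeg t) hh)⟩
  obtain ⟨h1, h2⟩ := h N hN1 F hF hn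
  refine ⟨fun hcard => ?_, fun V hV hVc => (measure_mono hsub).trans (h2 V hV hVc)⟩
  obtain ⟨a1, a2, t, ht1, ht2⟩ := h1 hcard
  exact ⟨fun h => (measure_mono hsub).trans (a1 h), fun h => (measure_mono hsub).trans (a2 h),
    t, ht1, rigid_of_hyp (hdeg t) ht2⟩

end Pool.Agent.Results.MP_70a088_an.FewCriticalPointsRigid
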