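import Mathlib
import Pool.Prelude.Def_F_c31e40fa
import Pool.Agent.U608.GT.G7
import Pool.Agent.N634.LF.Line
import Pool.Agent.N634.LF.Uni

/-!
# Line fields and the solutions of `f_c^n (c) = w` in the families `z ^ d + c`

Let `d ≥ 2`, `f_c (z) = z ^ d + c`, let `M_d` be the Multibrot set and `ψ` the conformal map from the
exterior of the unit disc onto its complement. For almost every target `w` in the plane, the `d ^ n`
parameters `c` with `f_c^n (c) = w` are distinct, and, as `n → ∞`, the proportion of those which are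
in `M_d` tends to zero. For all others the critical point escapes; so the proportion of the solutions
`c` for which the Julia set of `z ^ d + c` has positive area or carries an invariant line field tends
to zero. All solutions together are equidistributed according to the harmonic measure of `M_d`.

In the mean over `w` this says that

`d ^ (-n) ∫_{M_d} |(d / d c) f_c^n (c)| ^ 2 dA(c) → 0`,

(the area theorem gives that the expressions are at most `π`), that is: the polynomials `f_c^n (c)`,
the Faber polynomials of `M_d` of degree `d ^ n`, satisfy the area theorem with asymptotic equality.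

Method: for almost every `w` the potentials `d ^ (-n) log |f_c^n (c) - w|` converge to Green's
function of `M_d` in the mean; so the solutions are equidistributed. The solutions in `M_d` lie in the
closed set of the parameters of `M_d` for which `w` is in the filled Julia set. This set has harmonic
measure zero for almost every `w`, by Fubini's theorem, since harmonic-almost every point `c` of
the boundary of `M_d` satisfies the Collet-Eckmann condition, and has a filled Julia set of area zero
(starting result `JuliaAreaColletEckmann`).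
-/

set_option autoImplicit false

open Filter Topology MeasureTheory Polynomial

namespace Pool.Agent.Results.MP_70a088_an.GenericTargets

open Pool.Agent.H713R2 (IsExteriorMap)
open Pool.Agent.N634.LF (Rigid)
open N62a1eb23 (multibrotSet)

/-- The polynomial `z ^ d + c`. -/
def f (d : ℕ) (c : ℂ) : ℂ → ℂ := fun z => z ^ d + c

/-- The parameters `c` such that the `n`-th iterate of `z ^ d + c` maps the critical value `c` to
`w`. -/
def solutions (d n : ℕ) (w : ℂ) : Set ℂ := {c | (f d c)^[n] c = w}

/-- The parameters `c` for which the Julia set of `z ^ d + c` has positive area, or carries an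
invariant line field. -/
def exceptional (d : ℕ) : Set ℂ := {c | ¬ Rigid (X ^ d + C c)}

theorem P_eq {d : ℕ} (hd : 2 ≤ d) (n : ℕ) (c : ℂ) :
    Pool.Agent.H712R2.P d (n + 1) c = (f d c)^[n] c := by
  unfold Pool.Agent.H712R2.P
  rw [Function.iterate_succ_apply]
  have h : Pool.Agent.H712R2.fc d c = f d c := rfl
  rw [h]
  congr 1
  show (0 : ℂ) ^ d + c = c
  rw [zero_pow (by omega), zero_add]

theorem exceptional_sub {d : ℕ} (hd : 2 ≤ d) : exceptional d ⊆ multibrotSet d := by
  intro c hc
  by_contra h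
  apply hc
  apply Pool.Agent.N634.LF.rigid_of_null
  exact Pool.Agent.N634.LF.null_of_not_bad hd fun h2 => h h2.1

/-- **For almost every target `w`, few solutions of `f_c^n (c) = w` carry invariant line fields.** -/
theorem result (d : ℕ) (hd : 2 ≤ d) :
    (∃ ψ : ℂ → ℂ, IsExteriorMap (multibrotSet d) ψ) ∧
    ∀ ψ : ℂ → ℂ, IsExteriorMap (multibrotSet d) ψ →
    ∃ e : ℝ → ℂ, Measurable e ∧
      (∀ᵐ θ : ℝ, θ ∈ Set.Ioc 0 (2 * Real.pi) →
        Tendsto (fun r : ℝ => ψ (r * Complex.exp (θ * Complex.I))) (𝓝[>] 1) (𝓝 (e θ))) ∧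
      (∀ᵐ w : ℂ, (∀ n : ℕ, (solutions d n w).ncard = d ^ n) ∧
        Tendsto (fun n : ℕ => ((solutions d n w ∩ multibrotSet d).ncard : ℝ) / (d : ℝ) ^ n)
          atTop (𝓝 0) ∧
        Tendsto (fun n : ℕ => ((solutions d n w ∩ exceptional d).ncard : ℝ) / (d : ℝ) ^ n)
          atTop (𝓝 0) ∧
        ∀ φ : ℂ → ℝ, ContDiff ℝ 2 φ → HasCompactSupport φ →
          Tendsto (fun n : ℕ => (∑ᶠ c ∈ solutions d n w, φ c) / (d : ℝ) ^ n) atTop
            (𝓝 ((2 * Real.pi)⁻¹ * ∫ θ in (0 : ℝ)..(2 * Real.pi), φ (e θ)))) ∧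
      Tendsto (fun n : ℕ => (∫ c in multibrotSet d, ‖deriv (fun a => (f d a)^[n] a) c‖ ^ 2) /
        (d : ℝ) ^ n) atTop (𝓝 0) ∧
      ∀ b : ℕ → ℕ → ℂ, (∀ (n : ℕ) (z : ℂ), 1 < ‖z‖ →
        HasSum (fun m : ℕ => b n m / z ^ m) ((f d (ψ z))^[n] (ψ z) - z ^ (d ^ n))) →
        (∀ n : ℕ, Summable fun m : ℕ => (m : ℝ) * ‖b n m‖ ^ 2) ∧
        Tendsto (fun n : ℕ => (∑' m : ℕ, (m : ℝ) * ‖b n m‖ ^ 2) / (d : ℝ) ^ n) atTop (𝓝 1) := by
  obtain ⟨β, hβ⟩ := Pool.Agent.H713R2.exists_beta (d := d) hd
  refine ⟨⟨_, Pool.Agent.H713R2.exteriorMap_of_beta hβ⟩, ?_⟩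
  intro ψ hψ
  have hpi := Real.pi_pos
  have hd0 : (0 : ℝ) < d := by exact_mod_cast (by omega : 0 < d)
  obtain ⟨e, he, hland, hsn, hfr⟩ := Pool.Agent.U608.GT.exists_e hd hψ
  have hKK := Pool.Agent.U608.GT.target_ae d he (hfr.mono fun θ h => h.2)
  have hEE := Pool.Agent.U608.GT.EE_ae hd
  have hsim := Pool.Agent.U608.GT.simple_ae hd
  have hsol : ∀ n w, solutions d n w = {c | Pool.Agent.H712R2.P d (n + 1) c = w} := by
    intro n w
    ext c
    show (f d c)^[n] c = w ↔ Pool.Agent.H712R2.P d (n + 1) c = w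
    rw [P_eq hd]
  have hM : ∀ n w, solutions d n w ∩ multibrotSet d =
      {c | c ∈ multibrotSet d ∧ Pool.Agent.H712R2.P d (n + 1) c = w} := by
    intro n w
    rw [hsol]
    ext c
    exact and_comm
  have hfew : ∀ᵐ w : ℂ, Tendsto (fun n : ℕ => (Pool.Agent.U608.GT.NN d n w : ℝ) / (d : ℝ) ^ n)
      atTop (𝓝 0) := by
    filter_upwards [hKK, hEE] with w h1 h2
    exact Pool.Agent.U608.GT.few hd hψ he hsn h2 h1
  have hmsq := Pool.Agent.U608.GT.mean_sq hd hfew
  have hfun : ∀ n, (fun a => (f d a)^[n] a) = Pool.Agent.H712R2.P d (n + 1) := by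
    intro n
    funext a
    rw [P_eq hd]
  refine ⟨e, he, ?_, ?_, ?_, ?_⟩
  · have h1 : ∀ᵐ θ : ℝ ∂(volume.restrict (Set.Ioc 0 (2 * Real.pi))),
        Tendsto (fun r : ℝ => ψ (r * Complex.exp (θ * Complex.I))) (𝓝[>] 1) (𝓝 (e θ)) := by
      unfold Pool.Agent.Y736.HD.cm at hland
      rw [ae_iff, Measure.smul_apply, smul_eq_mul, mul_eq_zero] at hland
      rw [ae_iff]
      refine hland.resolve_left ?_
      simp [hpi]
    exact (ae_restrict_iff' measurableSet_Ioc).1 h1
  · filter_upwards [hKK, hEE, hsim, hfew] with w h1 h2 h3 h4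
    have h5 : Tendsto (fun n : ℕ => ((solutions d n w ∩ multibrotSet d).ncard : ℝ) / (d : ℝ) ^ n)
        atTop (𝓝 0) := by
      refine h4.congr fun n => ?_
      rw [hM]
      rfl
    refine ⟨fun n => by rw [hsol]; exact h3 n, h5, ?_, ?_⟩
    · refine squeeze_zero (fun n => by positivity) (fun n => ?_) h5
      gcongr
      · rw [hM]
        exact Pool.Agent.U608.GT.fin_solM hd n w
      · exact exceptional_sub hd
    · intro φ hφ hc
      have h6 := Pool.Agent.U608.GT.equi hd hψ hsn h2 hφ hc
      have h7 : ∫ θ, φ (e θ) ∂Pool.Agent.Y736.HD.cm =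
          (2 * Real.pi)⁻¹ * ∫ θ in (0 : ℝ)..(2 * Real.pi), φ (e θ) := by
        unfold Pool.Agent.Y736.HD.cm
        rw [integral_smul_measure, intervalIntegral.integral_of_le (by positivity),
          ENNReal.toReal_ofReal (by positivity), smul_eq_mul]
      rw [h7] at h6
      refine h6.congr fun n => ?_
      congr 1
      classical
      have h8 : solutions d n w = ((Pool.Agent.U608.GT.QQ d n w).roots.toFinset : Set ℂ) := by
        rw [hsol]
        ext c
        rw [Finset.mem_coe, Multiset.mem_toFinset, mem_roots (Pool.Agent.U608.GT.QQ_ne hd n w),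
          IsRoot.def, Pool.Agent.U608.GT.eval_QQ, sub_eq_zero]
        rfl
      have h9 : (Pool.Agent.U608.GT.QQ d n w).roots.Nodup := by
        rw [← Multiset.toFinset_card_eq_card_iff_nodup, Pool.Agent.U608.GT.card_roots_QQ hd,
          ← h3 n, ← hsol, h8, Set.ncard_coe_finset]
      rw [h8, finsum_mem_coe_finset, Finset.sum_eq_multiset_sum, Multiset.toFinset_val,
        Multiset.dedup_eq_self.2 h9]
  · simp only [hfun]
    exact hmsq
  · intro b hb
    have hs : ∀ n, HasSum (fun m : ℕ => (m : ℝ) * ‖b n m‖ ^ 2) ((d : ℝ) ^ n -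
        1 / Real.pi * ∫ c in multibrotSet d, ‖deriv (Pool.Agent.H712R2.P d (n + 1)) c‖ ^ 2) := by
      intro n
      refine Pool.Agent.U608.GT.sum_b hd hβ hψ n fun z hz => ?_
      rw [P_eq hd]
      exact hb n z hz
    refine ⟨fun n => (hs n).summable, ?_⟩
    have h1 : Tendsto (fun n : ℕ => 1 - 1 / Real.pi *
        ((∫ c in multibrotSet d, ‖deriv (Pool.Agent.H712R2.P d (n + 1)) c‖ ^ 2) / (d : ℝ) ^ n))
        atTop (𝓝 1) := by
      have := (hmsq.const_mul (1 / Real.pi)).const_sub 1
      rwa [mul_zero, sub_zero] at this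
    refine h1.congr fun n => ?_
    rw [(hs n).tsum_eq]
    have hdn : (d : ℝ) ^ n ≠ 0 := by positivity
    field_simp

end Pool.Agent.Results.MP_70a088_an.GenericTargets
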